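import Pool.Agent.H32.Dense.Iface

set_option autoImplicit false

namespace Pool.Agent.H78.Dense

open Finset Real
open Pool.Agent.H49.Ent Pool.Agent.H32.Dense

variable {N d : ℕ} (A : Fin N → Finset ℤ)

/-- pairs (line, time) -/
abbrev Om : Type := (i : Fin N) × {x : ℤ // x ∈ A i}

/-- the uniform line and a uniform time of it -/
noncomputable def pp (ω : Om A) : ℝ := 1 / ((N : ℝ) * (A ω.1).card)

lemma pp_nonneg (ω : Om A) : 0 ≤ pp A ω := by unfold pp; positivity

lemma sum_Om (f : Om A → ℝ) : ∑ ω, f ω = ∑ i, ∑ x : {x : ℤ // x ∈ A i}, f ⟨i, x⟩ :=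
  Fintype.sum_sigma f

lemma sum_const_fibre (hA : ∀ i, 0 < (A i).card) (hN : 0 < N) (g : Fin N → ℝ) :
    ∑ ω : Om A, pp A ω * g ω.1 = ∑ i, g i / N := by
  rw [sum_Om]
  apply sum_congr rfl
  intro i _
  have h1 : (0 : ℝ) < (A i).card := by exact_mod_cast hA i
  have h2 : (0 : ℝ) < N := by exact_mod_cast hN
  unfold pp
  simp only [sum_const, card_univ, Fintype.card_coe, nsmul_eq_mul]
  field_simp

lemma sum_pp (hA : ∀ i, 0 < (A i).card) (hN : 0 < N) : ∑ ω, pp A ω = 1 := by
  have := sum_const_fibre A hA hN (fun _ => 1)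
  simp only [mul_one, sum_const, card_univ, Fintype.card_fin, nsmul_eq_mul] at this
  rw [this]
  have h2 : (0 : ℝ) < N := by exact_mod_cast hN
  field_simp

/-- law of the line -/
lemma law_line (hA : ∀ i, 0 < (A i).card) (hN : 0 < N) {v : Fin N → Fin d → ℤ}
    (hv : Function.Injective v) (i : Fin N) :
    law (pp A) (fun ω => (v ω.1, ())) (v i, ()) = 1 / N := by
  classical
  unfold law
  trans ∑ ω : Om A, pp A ω * (if ω.1 = i then 1 else 0)
  · apply sum_congr rfl
    intro ω _
    by_cases h : ω.1 = i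
    · rw [if_pos (congrArg (fun k => (v k, ())) h), if_pos h, mul_one]
    · rw [if_neg (fun h' => h (hv (Prod.ext_iff.1 h').1)), if_neg h, mul_zero]
  · rw [sum_const_fibre A hA hN (fun k => if k = i then 1 else 0)]
    simp only [ite_div, zero_div, Finset.sum_ite_eq', mem_univ, if_true]

lemma law_pair {v : Fin N → Fin d → ℤ}
    (hv : Function.Injective v) (ω : Om A) :
    law (pp A) (fun ω => ((ω.2 : ℤ), (v ω.1, ()))) ((ω.2 : ℤ), (v ω.1, ())) = pp A ω := by
  classical
  unfold law
  rw [Finset.sum_eq_single ω]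
  · rw [if_pos rfl]
  · intro ω' _ hne
    rw [if_neg]
    intro h
    apply hne
    rw [Prod.mk.injEq, Prod.mk.injEq] at h
    obtain ⟨h1, h2, _⟩ := h
    have h3 := hv h2
    obtain ⟨i, x⟩ := ω
    obtain ⟨i', x'⟩ := ω'
    simp only at h1 h3
    subst h3
    rw [Subtype.ext h1]
  · intro h
    exact absurd (mem_univ _) h

lemma law_unit (hA : ∀ i, 0 < (A i).card) (hN : 0 < N) :
    law (pp A) (fun _ => ()) () = 1 := by
  classical
  unfold law
  simp only [if_true]
  exact sum_pp A hA hN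

theorem dense_of_AKG {d : ℕ} {a lam B₀ B₁ : ℝ} (ha : 1 ≤ a) (hl : 0 ≤ lam) (hB : 0 ≤ B₁)
    (h : AKG d a lam B₀ B₁) : DenseBound d a lam := by
  classical
  intro G₀
  refine ⟨Real.exp (B₀ + B₁ * G₀), Real.exp_pos _, ?_⟩
  intro M N u v A κ R hM hκ hv hvM hAM hcard hell hR
  rcases Nat.eq_zero_or_pos N with hN | hN
  · subst hN
    have hR0 : 0 ≤ R := le_trans (Nat.cast_nonneg _) (hR 0)
    have : 0 ≤ Real.exp (B₀ + B₁ * G₀) * κ ^ (-lam) * R ^ a := by positivity
    simpa using this
  have hMr : (0 : ℝ) < M := by exact_mod_cast hM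
  have hNr : (0 : ℝ) < N := by exact_mod_cast hN
  have hA : ∀ i, 0 < (A i).card := by
    intro i
    have h1 : (0 : ℝ) < (A i).card := lt_of_lt_of_le (by positivity) (hcard i)
    exact_mod_cast h1
  have hAr : ∀ i, (0 : ℝ) < (A i).card := fun i => by exact_mod_cast hA i
  have hp := pp_nonneg A
  have h1 := sum_pp A hA hN
  have hfam : IsFam (d := d) M (pp A) (fun _ => ()) (fun ω => v ω.1) (fun ω => u ω.1)
      (fun ω => (ω.2 : ℤ)) := by
    refine ⟨hM, hp, h1, fun ω _ k => hvM ω.1 k, ?_, ?_⟩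
    · intro ω ω' _ _ he
      have h5 : v ω.1 = v ω'.1 := (Prod.ext_iff.1 he).1
      exact congrArg u (hv h5)
    · intro ω _
      have := hAM ω.1 ω.2.2
      rw [Finset.mem_Ico] at this
      exact this
  have key := h M (Om A) Unit (pp A) (fun _ => ()) (fun ω => v ω.1) (fun ω => u ω.1)
      (fun ω => (ω.2 : ℤ)) hfam
  -- the direction
  have e1 : CH (pp A) (fun ω => v ω.1) (fun _ => ()) = Real.log N := by
    rw [CH_eq_neg_sum hp]
    have : (fun ω : Om A => -Real.log (law (pp A) (fun ω => (v ω.1, ())) (v ω.1, ()) /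
      law (pp A) (fun _ => ()) ())) = fun _ => Real.log N := by
      funext ω
      rw [law_line A hA hN hv, law_unit A hA hN, div_one, one_div, Real.log_inv, neg_neg]
    rw [this, Ex_const h1]
  -- the times
  have e2 : Kf M (pp A) (fun ω => (v ω.1, ())) (fun ω => (ω.2 : ℤ)) ≤ -Real.log κ := by
    unfold Kf
    rw [CH_eq_neg_sum hp]
    have h2 : Real.log M + Real.log κ ≤ Ex (pp A) (fun ω => -Real.log (law (pp A)
        (fun ω => ((ω.2 : ℤ), (v ω.1, ()))) ((ω.2 : ℤ), (v ω.1, ())) /
        law (pp A) (fun ω => (v ω.1, ())) (v ω.1, ()))) := by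
      conv_lhs => rw [← Ex_const h1 (Real.log M + Real.log κ)]
      apply Ex_mono hp
      intro ω _
      rw [law_pair A hv, law_line A hA hN hv]
      unfold pp
      have : 1 / ((N : ℝ) * (A ω.1).card) / (1 / N) = ((A ω.1).card : ℝ)⁻¹ := by
        have := hAr ω.1
        field_simp
      rw [this, Real.log_inv, neg_neg, ← Real.log_mul hMr.ne' hκ.ne']
      apply Real.log_le_log (by positivity)
      rw [mul_comm]
      exact hcard ω.1
    linarith
  -- the energy
  have e3 : Gf M (pp A) (fun ω => (v ω.1, ())) (fun ω => (ω.2 : ℤ)) ≤ G₀ := by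
    unfold Gf Ex dbl glue
    rw [Fintype.sum_prod_type]
    have hstep : ∀ ω : Om A, ∑ ω' : Om A, (if (v ω.1, ()) = (v ω'.1, ()) then
        pp A ω * pp A ω' / law (pp A) (fun ω => (v ω.1, ())) (v ω.1, ()) else 0)
        * ell M (ω.2 : ℤ) (ω'.2 : ℤ)
        = pp A ω * (((A ω.1).card : ℝ)⁻¹ * ∑ y ∈ A ω.1, ell M (ω.2 : ℤ) y) := by
      intro ω
      rw [sum_Om, Finset.sum_eq_single ω.1]
      · rw [mul_sum, mul_sum, ← Finset.sum_coe_sort (A ω.1)]
        apply sum_congr rfl
        intro y _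
        rw [if_pos rfl, law_line A hA hN hv]
        unfold pp
        simp only
        have := hAr ω.1
        field_simp
      · intro i _ hi
        apply sum_eq_zero
        intro y _
        rw [if_neg, zero_mul]
        intro he
        exact hi (hv (Prod.ext_iff.1 he).1).symm
      · intro hh
        exact absurd (mem_univ _) hh
    calc _ = ∑ ω : Om A, pp A ω * (((A ω.1).card : ℝ)⁻¹ * ∑ y ∈ A ω.1, ell M (ω.2 : ℤ) y) :=
          sum_congr rfl (fun ω _ => by
            rw [← hstep ω]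
            apply sum_congr rfl
            intro ω' _
            simp only)
      _ ≤ ∑ ω : Om A, pp A ω * G₀ := by
          apply sum_le_sum
          intro ω _
          apply mul_le_mul_of_nonneg_left _ (hp ω)
          have h3 := hell ω.1 ω.2 ω.2.2
          rw [inv_mul_le_iff₀ (hAr ω.1), mul_comm]
          exact h3
      _ = G₀ := by rw [← sum_mul, h1, one_mul]
  -- the slices
  have hR1 : 1 ≤ R := by
    have i0 : Fin N := ⟨0, hN⟩
    obtain ⟨x, hx⟩ := Finset.card_pos.1 (hA i0)
    have h3 : 0 < ((univ.filter fun i => x ∈ A i).image fun i => rd (pos M (u i) (v i) x)).card := by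
      apply Finset.card_pos.2
      exact ⟨_, mem_image_of_mem _ (mem_filter.2 ⟨mem_univ i0, hx⟩)⟩
    have h4 : (1 : ℝ) ≤ ((univ.filter fun i => x ∈ A i).image
      fun i => rd (pos M (u i) (v i) x)).card := by exact_mod_cast h3
    exact h4.trans (hR x)
  have e4 : Sf M (pp A) (fun _ => ()) (fun ω => v ω.1) (fun ω => u ω.1) (fun ω => (ω.2 : ℤ))
      ≤ Real.log R := by
    unfold Sf
    refine (CH_le_card hp h1 _ _ (fun w => ((univ.filter fun i => w.2 ∈ A i).image
      fun i => rd (pos M (u i) (v i) w.2))) ?_).trans ?_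
    · intro ω _
      exact mem_image_of_mem _ (mem_filter.2 ⟨mem_univ ω.1, ω.2.2⟩)
    · conv_rhs => rw [← Ex_const h1 (Real.log R)]
      apply Ex_mono hp
      intro ω _
      have h3 : 0 < ((univ.filter fun i => (ω.2 : ℤ) ∈ A i).image
          fun i => rd (pos M (u i) (v i) (ω.2 : ℤ))).card := by
        apply Finset.card_pos.2
        exact ⟨_, mem_image_of_mem _ (mem_filter.2 ⟨mem_univ ω.1, ω.2.2⟩)⟩
      apply Real.log_le_log (by exact_mod_cast h3) (hR _)
  rw [e1] at key
  have hfin : Real.log N ≤ a * Real.log R + lam * (-Real.log κ) + B₀ + B₁ * G₀ := by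
    have k1 := mul_le_mul_of_nonneg_left e4 (by linarith : 0 ≤ a)
    have k2 := mul_le_mul_of_nonneg_left e2 hl
    have k3 := mul_le_mul_of_nonneg_left e3 hB
    linarith
  have hR0 : 0 < R := by linarith
  calc (N : ℝ) = Real.exp (Real.log N) := (Real.exp_log hNr).symm
    _ ≤ Real.exp (a * Real.log R + lam * (-Real.log κ) + B₀ + B₁ * G₀) := Real.exp_le_exp.2 hfin
    _ = Real.exp (B₀ + B₁ * G₀) * κ ^ (-lam) * R ^ a := by
        rw [Real.rpow_def_of_pos hκ, Real.rpow_def_of_pos hR0, ← Real.exp_add, ← Real.exp_add]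
        congr 1
        ring

end Pool.Agent.H78.Dense
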